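import Pool.Agent.J4H23.Lex.Main
set_option autoImplicit false

/-!
# Classes of linear programs, in terms of the bases
-/

namespace Pool.Agent.J4H23.Lex

open Finset Matrix Pool.Agent.N597.QP Pool.Agent.J4H23.Box

variable {m n : ℕ}

variable {A : Fin m → Fin n → ℝ} {b β : Fin m → ℝ} {c : Fin n → ℝ} {μ : ℝ}

lemma mem_facetRows {V : Finset (Fin m) → Prop} {E : Finset (Fin m)} {k : Fin m} :
    k ∈ facetRows V E ↔ k ∉ E ∧ ∃ B, V B ∧ insert k E ⊆ B := by
  classical
  simp [facetRows]

/-- the vertices of the larger system -/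
lemma dn_basis (hnd : Nondeg A β) (hμ : Large A β c μ) {p₀ : Fin n → ℝ} (hp₀ : IsVertex A β p₀)
    {q : Fin n → ℝ} (hq : IsVertex (xA A c) (xb β μ) q) :
    ∃ B, VV A β B ∧ dn (tight (xA A c) (xb β μ) q) ⊆ B := by
  rw [dn_tight]
  by_cases h : c ⬝ᵥ q = μ
  · obtain ⟨⟨p, hp, hsub⟩, -⟩ := new_vertex hnd hμ hp₀ hq h
    exact ⟨_, ⟨p, hp, rfl⟩, hsub⟩
  · exact ⟨_, ⟨q, vertex_of_x hq h, rfl⟩, Subset.refl _⟩

/-- a further value -/
def snc {α : Type} (f : Fin m → α) (a : α) : Fin (m + 1) → α := Fin.snoc (α := fun _ => α) f a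

lemma snc_cast {α : Type} (f : Fin m → α) (a : α) (i : Fin m) : snc f a i.castSucc = f i :=
  Fin.snoc_castSucc (α := fun _ => α) _ _ _

lemma snc_last {α : Type} (f : Fin m → α) (a : α) : snc f a (Fin.last m) = a :=
  Fin.snoc_last (α := fun _ => α) _ _

/-- products of simplices -/
lemma BlockBases.ext (h : BlockBases (VV A β)) (hold : ∀ q, IsVertex (xA A c) (xb β μ) q →
    c ⬝ᵥ q ≠ μ) : Blocks (xA A c) (xb β μ) := by
  obtain ⟨κ, hκ⟩ := h
  refine ⟨snc (fun i => (κ i).castSucc) (Fin.last m), fun q hq i => ?_⟩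
  have h1 := hold q hq
  have h2 := vertex_of_x hq h1
  refine Fin.lastCases ?_ (fun i => ?_) i
  · refine ⟨Fin.last m, ⟨rfl, fun h => h1 (tight_last.1 h)⟩, fun j => ?_⟩
    refine Fin.lastCases (fun _ => rfl) (fun j => ?_) j
    rintro ⟨h3, -⟩
    rw [snc_cast, snc_last] at h3
    exact absurd h3 (Fin.castSucc_lt_last _).ne
  · obtain ⟨j, ⟨h3, h4⟩, h5⟩ := hκ _ ⟨q, h2, rfl⟩ i
    refine ⟨j.castSucc, ⟨?_, fun h => h4 (tight_cast.1 h)⟩, fun j' => ?_⟩
    · rw [snc_cast, snc_cast, h3]
    · refine Fin.lastCases ?_ (fun j' => ?_) j'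
      · rintro ⟨h6, -⟩
        rw [snc_cast, snc_last] at h6
        exact absurd h6.symm (Fin.castSucc_lt_last _).ne
      · rintro ⟨h6, h7⟩
        rw [snc_cast, snc_cast] at h6
        rw [h5 j' ⟨Fin.castSucc_injective m h6, fun h => h7 (tight_cast.2 h)⟩]

/-- faces with few facets -/
lemma FewBases.ext {e : ℕ} (hnd : Nondeg A β) (hμ : Large A β c μ) {p₀ : Fin n → ℝ}
    (hp₀ : IsVertex A β p₀) (h : FewBases (VV A β) n e) :
    FewFacets (xA A c) (xb β μ) (e + 2) := by
  classical
  intro q hq E hE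
  obtain ⟨B, hB, hBq⟩ := dn_basis hnd hμ hp₀ hq
  have hEB : dn E ⊆ B := (dn_mono hE).trans hBq
  have h1 := h B hB (dn E) hEB
  have hcE : E.card ≤ n := by
    rw [← nondeg_x hnd hμ hp₀ q hq]
    exact card_le_card hE
  have hsub : ∀ i : Fin m, i.castSucc ∈ facets (xA A c) (xb β μ) E → i ∈ facetRows (VV A β) (dn E) := by
    intro i hi
    obtain ⟨a1, q', a2, a3⟩ := mem_facets.1 hi
    obtain ⟨B', b1, b2⟩ := dn_basis hnd hμ hp₀ a2
    refine mem_facetRows.2 ⟨fun h => a1 (mem_dn.1 h), B', b1, fun j hj => b2 (mem_dn.2 ?_)⟩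
    rcases mem_insert.1 hj with h | h
    · rw [h]
      exact a3 (mem_insert_self _ _)
    · exact a3 (mem_insert_of_mem (mem_dn.1 h))
  by_cases hl : Fin.last m ∈ E
  · have h2 : facets (xA A c) (xb β μ) E ⊆ up1 (facetRows (VV A β) (dn E)) := by
      intro i
      refine Fin.lastCases ?_ (fun i => ?_) i
      · intro hi
        exact absurd hl (mem_facets.1 hi).1
      · intro hi
        exact mem_up1.2 (hsub i hi)
    have h3 := card_le_card h2
    rw [card_up1] at h3
    have h4 : (dn E).card + 1 = E.card := by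
      have h5 : E = insert (Fin.last m) (up1 (dn E)) := by
        ext i
        refine Fin.lastCases ?_ (fun i => ?_) i
        · exact ⟨fun _ => mem_insert_self _ _, fun _ => hl⟩
        · rw [mem_insert, mem_up1, mem_dn]
          constructor
          · exact Or.inr
          · rintro (h | h)
            · exact absurd h (Fin.castSucc_lt_last _).ne
            · exact h
      have h6 := congrArg card h5
      rw [card_insert_of_notMem last_up1, card_up1] at h6
      exact h6.symm
    omega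
  · have h2 : facets (xA A c) (xb β μ) E ⊆
        insert (Fin.last m) (up1 (facetRows (VV A β) (dn E))) := by
      intro i
      refine Fin.lastCases ?_ (fun i => ?_) i
      · intro _
        exact mem_insert_self _ _
      · intro hi
        exact mem_insert_of_mem (mem_up1.2 (hsub i hi))
    have h3 := (card_le_card h2).trans (card_insert_le _ _)
    rw [card_up1] at h3
    have h4 : (dn E).card = E.card := by
      rw [← card_up1, up1_dn hl]
    omega

/-- products which are cut by half-spaces -/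
lemma ProductBases.ext {k r : ℕ} (hnd : Nondeg A β) (hμ : Large A β c μ) {p₀ : Fin n → ℝ}
    (hp₀ : IsVertex A β p₀) (h : ProductBases (VV A β) n k r) :
    CutProduct (xA A c) (xb β μ) k (r + 1) := by
  classical
  obtain ⟨X, κ, d, h1, h2, h3, h4⟩ := h
  set κ' : Fin (m + 1) → Fin (m + 1) := snc (fun i => (κ i).castSucc) (Fin.last m) with hκ'
  have k1 : κ' (Fin.last m) = Fin.last m := by rw [hκ', snc_last]
  have k2 : ∀ i : Fin m, κ' i.castSucc = (κ i).castSucc := fun i => by
    rw [hκ', snc_cast]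
  set d' : Fin (m + 1) → ℕ := snc d 0 with hd'
  have d1 : d' (Fin.last m) = 0 := by rw [hd', snc_last]
  have d2 : ∀ i : Fin m, d' i.castSucc = d i := fun i => by rw [hd', snc_cast]
  have hX : ∀ i : Fin m, i.castSucc ∈ insert (Fin.last m) (up1 X) ↔ i ∈ X := by
    intro i
    rw [mem_insert, mem_up1]
    constructor
    · rintro (h | h)
      · exact absurd h (Fin.castSucc_lt_last _).ne
      · exact h
    · exact Or.inr
  have key : ∀ (S : Finset (Fin (m + 1))) (γ : Fin (m + 1)) (N : ℕ),
      (∀ γ', γ = γ'.castSucc → ((dn S).filter fun i => i ∉ X ∧ κ i = γ').card ≤ N) →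
      (S.filter fun i => i ∉ insert (Fin.last m) (up1 X) ∧ κ' i = γ).card ≤ N := by
    intro S γ N hN
    by_cases hγ : ∃ γ' : Fin m, γ = γ'.castSucc
    · obtain ⟨γ', rfl⟩ := hγ
      refine le_trans ?_ (hN γ' rfl)
      rw [← card_up1 (B := (dn S).filter fun i => i ∉ X ∧ κ i = γ')]
      refine card_le_card fun i => ?_
      refine Fin.lastCases ?_ (fun i => ?_) i
      · intro hi
        exact absurd (mem_insert_self _ _) (mem_filter.1 hi).2.1
      · intro hi
        obtain ⟨a1, a2, a3⟩ := mem_filter.1 hi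
        rw [k2] at a3
        refine mem_up1.2 (mem_filter.2 ⟨mem_dn.2 a1, fun h => a2 ((hX i).2 h),
          Fin.castSucc_injective m a3⟩)
    · have : (S.filter fun i => i ∉ insert (Fin.last m) (up1 X) ∧ κ' i = γ) = ∅ := by
        rw [filter_eq_empty_iff]
        intro i
        refine Fin.lastCases ?_ (fun i => ?_) i
        · rintro - ⟨a2, -⟩
          exact a2 (mem_insert_self _ _)
        · rintro - ⟨-, a3⟩
          exact hγ ⟨κ i, by rw [← a3, k2]⟩
      rw [this, card_empty]
      exact Nat.zero_le _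
  refine ⟨insert (Fin.last m) (up1 X), κ', d', ?_, ?_, fun γ => ?_, fun q hq γ => ?_⟩
  · refine (card_insert_le _ _).trans ?_
    rw [card_up1]
    exact Nat.add_le_add_right h1 1
  · rw [Fin.sum_univ_castSucc, d1, add_zero]
    refine le_trans (le_of_eq ?_) h2
    exact sum_congr rfl fun i _ => d2 i
  · refine key univ γ _ fun γ' hγ' => ?_
    rw [hγ', d2]
    refine le_trans (card_le_card ?_) (h3 γ')
    exact filter_subset_filter _ (subset_univ _)
  · obtain ⟨B, hB, hBq⟩ := dn_basis hnd hμ hp₀ hq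
    refine key _ γ _ fun γ' hγ' => ?_
    rw [hγ', d2]
    exact (card_le_card (filter_subset_filter _ hBq)).trans (h4 B hB γ')

/-- nested block structures -/
lemma nested_ext {D : ℕ} {X : Finset (Fin n)} {R : Finset (Fin m)} (h : Lex.Nested A D X R) :
    Box.Nested (xA A c) D X (up1 R) := by
  induction h with
  | nil D X R h =>
    refine .nil D X _ fun i hi j hj => ?_
    obtain ⟨i', hi', rfl⟩ := mem_map.1 hi
    change xA A c i'.castSucc j = 0
    rw [xA_cast]
    exact h i' hi' j hj
  | union D X₁ X₂ R₁ R₂ hX h₁ h₂ _ _ c₁ c₂ =>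
    have e : up1 (R₁ ∪ R₂) = up1 R₁ ∪ up1 R₂ := map_union _ _
    rw [e]
    refine .union D X₁ X₂ _ _ hX (fun i hi j hj => ?_) (fun i hi j hj => ?_) c₁ c₂
    · obtain ⟨i', hi', rfl⟩ := mem_map.1 hi
      change xA A c i'.castSucc j = 0
      rw [xA_cast]
      exact h₁ i' hi' j hj
    · obtain ⟨i', hi', rfl⟩ := mem_map.1 hi
      change xA A c i'.castSucc j = 0
      rw [xA_cast]
      exact h₂ i' hi' j hj
  | add D X R i _ c =>
    have e : up1 (insert i R) = insert i.castSucc (up1 R) := map_insert _ _ _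
    rw [e]
    exact .add D X _ _ c

end Pool.Agent.J4H23.Lex
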