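import Pool.Agent.N597.QP.Geo
set_option autoImplicit false

/-!
# The simplex method with the lexicographic ratio test: definitions

Linear programs `max c q`, `A q ≤ b` with real data, `m` rows and `n` variables; `Feas`, `tight` and
`IsVertex` are defined in `Pool.Agent.N597.QP.Geo`.
-/

namespace Pool.Agent.J4H23.Lex

open Finset Matrix Pool.Agent.N597.QP

variable {m n : ℕ}

/-- The right hand sides of the lexicographic rule: the row `i` is relaxed by `ε ^ (i + 1)` -/
def pert (b : Fin m → ℝ) (ε : ℝ) : Fin m → ℝ := fun i => b i + ε ^ ((i : ℕ) + 1)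

/-- `B` is a lexicographically feasible basis: for all small `ε > 0` the rows in `B` are the tight
rows of a vertex of the perturbed polyhedron (this polyhedron is simple, so its vertices have `n`
tight rows, and every row of `B` is left along one edge; the next basis is unique). -/
def LexBasis (A : Fin m → Fin n → ℝ) (b : Fin m → ℝ) (B : Finset (Fin m)) : Prop :=
  ∃ ε₀ > 0, ∀ ε, 0 < ε → ε < ε₀ → ∃ q, IsVertex A (pert b ε) q ∧ tight A (pert b ε) q = B

/-- The improving rows of the basis `B`: those which can be left in a direction in which the other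
rows of `B` stay tight and the objective function increases (in other words the nonbasic variables
with positive reduced costs). -/
noncomputable def impr (A : Fin m → Fin n → ℝ) (c : Fin n → ℝ) (B : Finset (Fin m)) :
    Finset (Fin m) := by
  classical
  exact B.filter fun r => ∃ d : Fin n → ℝ, (∀ i ∈ B, i ≠ r → A i ⬝ᵥ d = 0) ∧ A r ⬝ᵥ d < 0 ∧
    0 < c ⬝ᵥ d

/-- what the rule has seen: the pairs (basis, improving rows), the present one first -/
noncomputable def seenB (A : Fin m → Fin n → ℝ) (c : Fin n → ℝ) (B : ℕ → Finset (Fin m)) :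
    ℕ → List (Finset (Fin m) × Finset (Fin m))
  | 0 => [(B 0, impr A c (B 0))]
  | t + 1 => (B (t + 1), impr A c (B (t + 1))) :: seenB A c B t

/-- A run of the simplex method with the lexicographic ratio test: `B 0, …, B T` are
lexicographically feasible bases, `q 0, …, q T` their vertices, and in each pivot the improving row
which the rule names is replaced by another one; so `q (t + 1) = q t` (a degenerate pivot), or
`q (t + 1)` is the other end of an edge along which the objective function increases. The last vertex
is optimal, or the row which the rule names can be left along an unbounded edge on which the objective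
function increases. -/
def IsRun (rule : List (Finset (Fin m) × Finset (Fin m)) → Fin m) (A : Fin m → Fin n → ℝ)
    (b : Fin m → ℝ) (c : Fin n → ℝ) (B₀ : Finset (Fin m)) (T : ℕ) (B : ℕ → Finset (Fin m))
    (q : ℕ → Fin n → ℝ) : Prop :=
  B 0 = B₀ ∧ (∀ t ≤ T, LexBasis A b (B t) ∧ IsVertex A b (q t) ∧ B t ⊆ tight A b (q t)) ∧
    (∀ t < T, rule (seenB A c B t) ∈ impr A c (B t) ∧
      (B t).erase (rule (seenB A c B t)) ⊆ B (t + 1) ∧ B (t + 1) ≠ B t ∧
      (q (t + 1) = q t ∨ c ⬝ᵥ q t < c ⬝ᵥ q (t + 1))) ∧
    ((impr A c (B T) = ∅ ∧ ∀ p, Feas A b p → c ⬝ᵥ p ≤ c ⬝ᵥ q T) ∨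
      (rule (seenB A c B T) ∈ impr A c (B T) ∧ ∃ d : Fin n → ℝ,
        (∀ i ∈ B T, i ≠ rule (seenB A c B T) → A i ⬝ᵥ d = 0) ∧ (∀ i, A i ⬝ᵥ d ≤ 0) ∧
        0 < c ⬝ᵥ d))

/-! ### Classes of linear programs, in terms of a family `V` of bases -/

/-- The rows are divided into blocks, and each basis in `V` contains all rows of each block except
one. (So if `V` are the tight sets of the vertices of a simple polyhedron, this has the combinatorial
type of a product of simplices.) -/
def BlockBases (V : Finset (Fin m) → Prop) : Prop :=
  ∃ κ : Fin m → Fin m, ∀ B, V B → ∀ i, ∃! j, κ j = κ i ∧ j ∉ B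

/-- the rows which define facets of the face with the rows `E` -/
noncomputable def facetRows (V : Finset (Fin m) → Prop) (E : Finset (Fin m)) :
    Finset (Fin m) := by
  classical
  exact univ.filter fun k => k ∉ E ∧ ∃ B, V B ∧ insert k E ⊆ B

/-- Every face has at most `2 d + e` facets, where `d` is its dimension. -/
def FewBases (V : Finset (Fin m) → Prop) (n e : ℕ) : Prop :=
  ∀ B, V B → ∀ E ⊆ B, (facetRows V E).card ≤ 2 * (n - E.card) + e

/-- All rows outside a set `X` of at most `r` rows are divided into blocks; the block `β` has at most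
`d β + k` rows, at most `d β` of them in each basis in `V`, and `∑ d β ≤ n`. (This is the case if the
polyhedron is an intersection of a product of simple polyhedra with `r` half-spaces, and the factors
have the dimensions `d β` and are given by at most `d β + k` rows.) -/
def ProductBases (V : Finset (Fin m) → Prop) (n k r : ℕ) : Prop :=
  ∃ (X : Finset (Fin m)) (κ : Fin m → Fin m) (d : Fin m → ℕ), X.card ≤ r ∧ ∑ β, d β ≤ n ∧
    (∀ β, (univ.filter fun i => i ∉ X ∧ κ i = β).card ≤ d β + k) ∧
    ∀ B, V B → ∀ β, (B.filter fun i => i ∉ X ∧ κ i = β).card ≤ d β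

/-- The columns `X` and the rows `R` of the matrix `A` form a nested block structure of depth `D`:
`R` has no nonzero entries in `X`; or there are two such structures without common columns, and
the rows of each of them have no nonzero entries in the columns of the other; or one row is added
to a structure of depth `D - 1`. -/
inductive Nested (A : Fin m → Fin n → ℝ) : ℕ → Finset (Fin n) → Finset (Fin m) → Prop
  | nil (D : ℕ) (X : Finset (Fin n)) (R : Finset (Fin m)) (h : ∀ i ∈ R, ∀ j ∈ X, A i j = 0) :
      Nested A D X R
  | union (D : ℕ) (X₁ X₂ : Finset (Fin n)) (R₁ R₂ : Finset (Fin m)) (hX : Disjoint X₁ X₂)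
      (h₁ : ∀ i ∈ R₁, ∀ j ∈ X₂, A i j = 0) (h₂ : ∀ i ∈ R₂, ∀ j ∈ X₁, A i j = 0)
      (c₁ : Nested A D X₁ R₁) (c₂ : Nested A D X₂ R₂) : Nested A D (X₁ ∪ X₂) (R₁ ∪ R₂)
  | add (D : ℕ) (X : Finset (Fin n)) (R : Finset (Fin m)) (i : Fin m) (c : Nested A D X R) :
      Nested A (D + 1) X (insert i R)

end Pool.Agent.J4H23.Lex
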