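import Pool.Agent.J4H23.Lex.Ray
set_option autoImplicit false

/-!
# The system with the additional row `c q ≤ μ`
-/

namespace Pool.Agent.J4H23.Lex

open Finset Matrix Pool.Agent.N597.QP Pool.Agent.J4H23.Box

variable {m n : ℕ} {A : Fin m → Fin n → ℝ} {b β : Fin m → ℝ} {c : Fin n → ℝ}
  {B T : Finset (Fin m)} {μ : ℝ} {q : Fin n → ℝ}

/-- the rows, and `c` as the last row -/
def xA (A : Fin m → Fin n → ℝ) (c : Fin n → ℝ) : Fin (m + 1) → Fin n → ℝ :=
  Fin.snoc (α := fun _ => Fin n → ℝ) A c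

/-- the right hand sides, the last one is `μ` -/
def xb (β : Fin m → ℝ) (μ : ℝ) : Fin (m + 1) → ℝ := Fin.snoc (α := fun _ => ℝ) β μ

@[simp] lemma xA_cast (i : Fin m) : xA A c i.castSucc = A i := by
  unfold xA; exact Fin.snoc_castSucc (α := fun _ => Fin n → ℝ) _ _ _

@[simp] lemma xA_last : xA A c (Fin.last m) = c := by
  unfold xA; exact Fin.snoc_last (α := fun _ => Fin n → ℝ) _ _

@[simp] lemma xb_cast (i : Fin m) : xb β μ i.castSucc = β i := by
  unfold xb; exact Fin.snoc_castSucc (α := fun _ => ℝ) _ _ _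

@[simp] lemma xb_last : xb β μ (Fin.last m) = μ := by
  unfold xb; exact Fin.snoc_last (α := fun _ => ℝ) _ _

/-- sets of rows as sets of rows of the larger system -/
def up1 (B : Finset (Fin m)) : Finset (Fin (m + 1)) := B.map Fin.castSuccEmb

/-- the rows of the smaller system -/
def dn (B : Finset (Fin (m + 1))) : Finset (Fin m) := univ.filter fun i => i.castSucc ∈ B

lemma mem_up1 {i : Fin m} : i.castSucc ∈ up1 B ↔ i ∈ B := by
  unfold up1
  rw [mem_map]
  constructor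
  · rintro ⟨a, ha, h⟩
    rw [← Fin.castSucc_injective m h]
    exact ha
  · exact fun h => ⟨i, h, rfl⟩

lemma last_up1 : Fin.last m ∉ up1 B := by
  unfold up1
  rw [mem_map]
  rintro ⟨a, -, h⟩
  exact (Fin.castSucc_lt_last a).ne h

lemma mem_dn {S : Finset (Fin (m + 1))} {i : Fin m} : i ∈ dn S ↔ i.castSucc ∈ S := by
  unfold dn
  rw [mem_filter]
  simp

lemma dn_up1 : dn (up1 B) = B := by
  ext i
  rw [mem_dn, mem_up1]

lemma up1_dn {S : Finset (Fin (m + 1))} (h : Fin.last m ∉ S) : up1 (dn S) = S := by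
  ext i
  refine Fin.lastCases ?_ (fun i => ?_) i
  · exact ⟨fun h' => absurd h' last_up1, fun h' => absurd h' h⟩
  · rw [mem_up1, mem_dn]

lemma card_up1 : (up1 B).card = B.card := card_map _

lemma up1_inj {B B' : Finset (Fin m)} (h : up1 B = up1 B') : B = B' := by
  rw [← dn_up1 (B := B), h, dn_up1]

lemma up1_mono {B B' : Finset (Fin m)} (h : B ⊆ B') : up1 B ⊆ up1 B' := map_subset_map.2 h

lemma dn_mono {S S' : Finset (Fin (m + 1))} (h : S ⊆ S') : dn S ⊆ dn S' := by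
  intro i hi
  rw [mem_dn] at *
  exact h hi

lemma card_dn_le (S : Finset (Fin (m + 1))) : S.card ≤ (dn S).card + 1 := by
  classical
  have h : S ⊆ insert (Fin.last m) (up1 (dn S)) := by
    intro i
    refine Fin.lastCases ?_ (fun i => ?_) i
    · intro _
      exact mem_insert_self _ _
    · intro hi
      exact mem_insert_of_mem (mem_up1.2 (mem_dn.2 hi))
  have := (card_le_card h).trans (card_insert_le _ _)
  rwa [card_up1] at this

lemma feas_x : Feas (xA A c) (xb β μ) q ↔ Feas A β q ∧ c ⬝ᵥ q ≤ μ := by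
  constructor
  · intro h
    refine ⟨fun i => ?_, ?_⟩
    · have := h i.castSucc
      rwa [xA_cast, xb_cast] at this
    · have := h (Fin.last m)
      rwa [xA_last, xb_last] at this
  · rintro ⟨h1, h2⟩ i
    refine Fin.lastCases ?_ (fun i => ?_) i
    · rw [xA_last, xb_last]; exact h2
    · rw [xA_cast, xb_cast]; exact h1 i

lemma tight_cast {i : Fin m} : i.castSucc ∈ tight (xA A c) (xb β μ) q ↔ i ∈ tight A β q := by
  rw [mem_tight, mem_tight, xA_cast, xb_cast]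

lemma tight_last : Fin.last m ∈ tight (xA A c) (xb β μ) q ↔ c ⬝ᵥ q = μ := by
  rw [mem_tight, xA_last, xb_last]

lemma dn_tight : dn (tight (xA A c) (xb β μ) q) = tight A β q := by
  ext i
  rw [mem_dn, tight_cast]

lemma tight_x (h : c ⬝ᵥ q ≠ μ) : tight (xA A c) (xb β μ) q = up1 (tight A β q) := by
  rw [← dn_tight (A := A) (β := β) (q := q) (c := c) (μ := μ), up1_dn]
  rw [tight_last]
  exact h

lemma vertex_x (hq : IsVertex A β q) (h : c ⬝ᵥ q ≤ μ) : IsVertex (xA A c) (xb β μ) q := by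
  refine ⟨feas_x.2 ⟨hq.1, h⟩, fun q' hq' => hq.2 q' fun i hi => ?_⟩
  have := hq' i.castSucc (tight_cast.2 hi)
  rwa [xA_cast, xb_cast] at this

lemma vertex_of_x (hq : IsVertex (xA A c) (xb β μ) q) (h : c ⬝ᵥ q ≠ μ) : IsVertex A β q := by
  refine ⟨(feas_x.1 hq.1).1, fun q' hq' => hq.2 q' fun i hi => ?_⟩
  rw [tight_x h] at hi
  revert hi
  refine Fin.lastCases ?_ (fun i => ?_) i
  · intro hi
    exact absurd hi last_up1
  · intro hi
    rw [xA_cast, xb_cast]
    exact hq' i (mem_up1.1 hi)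

/-- a feasible point lies on no more rows than some vertex -/
lemma below_vertex {p₀ : Fin n → ℝ} (hp₀ : IsVertex A β p₀) (hq : Feas A β q) :
    ∃ p, IsVertex A β p ∧ tight A β q ⊆ tight A β p := by
  have h0 : VertexOf A β univ p₀ := ⟨fun i _ => hp₀.1 i, fun q' h => hp₀.2 q' fun i hi =>
    h i (mem_univ _) (mem_tight.1 hi)⟩
  obtain ⟨p, h1, h2⟩ := exists_vertex h0 _ q (fun i _ => hq i) le_rfl
  exact ⟨p, ⟨fun i => h1.1 i (mem_univ _), fun q' h => h1.2 q' fun i _ hi =>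
    h i (mem_tight.2 hi)⟩, fun i hi => mem_tight.2 (h2 i (mem_univ _) (mem_tight.1 hi))⟩

/-- the value `μ` is larger than the values of all vertices -/
def Large (A : Fin m → Fin n → ℝ) (β : Fin m → ℝ) (c : Fin n → ℝ) (μ : ℝ) : Prop :=
  ∀ p, IsVertex A β p → c ⬝ᵥ p < μ

lemma exists_large (A : Fin m → Fin n → ℝ) (β : Fin m → ℝ) (c : Fin n → ℝ) :
    ∃ μ, Large A β c μ := by
  classical
  have hf : (Set.range fun B : Finset (Fin m) => c ⬝ᵥ pt A β B).Finite := Set.finite_range _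
  obtain ⟨μ, hμ⟩ := hf.bddAbove
  refine ⟨μ + 1, fun p hp => ?_⟩
  have h1 := hμ ⟨tight A β p, rfl⟩
  simp only [pt_tight hp] at h1
  linarith

variable (hnd : Nondeg A β) (hμ : Large A β c μ)

include hnd hμ in
lemma new_vertex {p₀ : Fin n → ℝ} (hp₀ : IsVertex A β p₀)
    (hq : IsVertex (xA A c) (xb β μ) q) (h : c ⬝ᵥ q = μ) :
    (∃ p, IsVertex A β p ∧ tight A β q ⊆ tight A β p) ∧ (tight A β q).card + 1 = n := by
  obtain ⟨p, hp, hsub⟩ := below_vertex hp₀ (feas_x.1 hq.1).1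
  refine ⟨⟨p, hp, hsub⟩, ?_⟩
  have h1 : tight A β q ≠ tight A β p := by
    intro heq
    have : q = p := hp.2 q fun i hi => mem_tight.1 (heq ▸ hi)
    have h2 := hμ p hp
    rw [← this, h] at h2
    exact lt_irrefl _ h2
  have h2 := card_lt_card (hsub.ssubset_of_ne h1)
  rw [hnd p hp] at h2
  have h3 := (det_of_vertex hq).card_le.trans (card_dn_le _)
  rw [dn_tight] at h3
  omega

include hnd hμ in
lemma nondeg_x {p₀ : Fin n → ℝ} (hp₀ : IsVertex A β p₀) : Nondeg (xA A c) (xb β μ) := by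
  intro q hq
  by_cases h : c ⬝ᵥ q = μ
  · obtain ⟨-, h1⟩ := new_vertex hnd hμ hp₀ hq h
    have h2 := card_dn_le (tight (xA A c) (xb β μ) q)
    have h3 := (det_of_vertex hq).card_le
    rw [dn_tight] at h2
    omega
  · rw [tight_x h, card_up1]
    exact hnd q (vertex_of_x hq h)

include hμ

/-- the ray which leaves the last vertex -/
lemma ray_of_edge {x y : Fin n → ℝ} (hx : IsVertex A β x) (hy : Feas A β y)
    (hcy : μ ≤ c ⬝ᵥ y) {r : Fin m} (hr : r ∈ tight A β x)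
    (hsub : (tight A β x).erase r ⊆ tight A β y) :
    (∀ i ∈ tight A β x, i ≠ r → A i ⬝ᵥ (y - x) = 0) ∧ A r ⬝ᵥ (y - x) < 0 ∧
      (∀ j, A j ⬝ᵥ (y - x) ≤ 0) ∧ 0 < c ⬝ᵥ (y - x) := by
  classical
  have hcx := hμ x hx
  set d := y - x with hd
  have hcd : 0 < c ⬝ᵥ d := by rw [hd, dotProduct_sub]; linarith
  have h1 : ∀ i ∈ tight A β x, i ≠ r → A i ⬝ᵥ d = 0 := by
    intro i hi hir
    rw [hd, dotProduct_sub, mem_tight.1 hi, mem_tight.1 (hsub (mem_erase.2 ⟨hir, hi⟩)), sub_self]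
  have h2 : A r ⬝ᵥ d < 0 := by
    have h3 : A r ⬝ᵥ d ≤ 0 := by
      rw [hd, dotProduct_sub, mem_tight.1 hr]
      have := hy r
      linarith
    refine lt_of_le_of_ne h3 fun h0 => ?_
    have : d = 0 := det_of_vertex hx d fun i hi => by
      by_cases hir : i = r
      · rw [hir]; exact h0
      · exact h1 i hi hir
    rw [this, dotProduct_zero] at hcd
    exact lt_irrefl _ hcd
  refine ⟨h1, h2, ?_, hcd⟩
  by_contra hcon
  push Not at hcon
  obtain ⟨j, hj⟩ := hcon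
  -- the point where the ray leaves the polyhedron, seen from `y`
  have hyt : ∀ i ∈ tight A β y, i ∈ tight A β y := fun i hi => hi
  set Z := univ.filter fun s => 0 < A s ⬝ᵥ d with hZ
  obtain ⟨s, hs, hmin⟩ := exists_min_image Z (fun s => (β s - A s ⬝ᵥ y) / (A s ⬝ᵥ d))
    ⟨j, mem_filter.2 ⟨mem_univ _, hj⟩⟩
  have hsd : 0 < A s ⬝ᵥ d := (mem_filter.1 hs).2
  set t := (β s - A s ⬝ᵥ y) / (A s ⬝ᵥ d) with ht
  have ht0 : 0 ≤ t := div_nonneg (sub_nonneg.2 (hy s)) hsd.le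
  set w := y + t • d with hw
  have hdot : ∀ r, A r ⬝ᵥ w = A r ⬝ᵥ y + t * (A r ⬝ᵥ d) := by
    intro r; rw [hw, dotProduct_add, dotProduct_smul, smul_eq_mul]
  have hfw : Feas A β w := by
    intro i
    rw [hdot]
    by_cases hi : 0 < A i ⬝ᵥ d
    · have h3 := hmin i (mem_filter.2 ⟨mem_univ _, hi⟩)
      rw [le_div_iff₀ hi] at h3
      linarith
    · have := mul_nonpos_of_nonneg_of_nonpos ht0 (not_lt.1 hi)
      have := hy i
      linarith
  have hsw : s ∈ tight A β w := by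
    rw [mem_tight, hdot, ht, div_mul_cancel₀ _ hsd.ne']
    ring
  have htw : (tight A β x).erase r ⊆ tight A β w := by
    intro i hi
    obtain ⟨a1, a2⟩ := mem_erase.1 hi
    rw [mem_tight, hdot, h1 i a2 a1, mul_zero, add_zero]
    exact mem_tight.1 (hsub hi)
  have hwv : IsVertex A β w := by
    refine ⟨hfw, fun w' hw' => ?_⟩
    set z := w' - w with hz
    have hz0 : ∀ i ∈ tight A β w, A i ⬝ᵥ z = 0 := by
      intro i hi
      rw [hz, dotProduct_sub, hw' i hi, mem_tight.1 hi, sub_self]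
    have h3 : z - (A r ⬝ᵥ z / (A r ⬝ᵥ d)) • d = 0 := det_of_vertex hx _ fun i hi => by
      rw [dotProduct_sub, dotProduct_smul, smul_eq_mul]
      by_cases hir : i = r
      · rw [hir, div_mul_cancel₀ _ h2.ne, sub_self]
      · rw [hz0 i (htw (mem_erase.2 ⟨hir, hi⟩)), h1 i hi hir, mul_zero, sub_zero]
    have h4 : z = (A r ⬝ᵥ z / (A r ⬝ᵥ d)) • d := sub_eq_zero.1 h3
    have h5 := hz0 s hsw
    rw [h4, dotProduct_smul, smul_eq_mul] at h5
    have h6 : A r ⬝ᵥ z / (A r ⬝ᵥ d) = 0 := (mul_eq_zero.1 h5).resolve_right hsd.ne'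
    rw [h6, zero_smul] at h4
    exact sub_eq_zero.1 h4
  have h3 := hμ w hwv
  have h4 : c ⬝ᵥ w = c ⬝ᵥ y + t * (c ⬝ᵥ d) := by
    rw [hw, dotProduct_add, dotProduct_smul, smul_eq_mul]
  have := mul_nonneg ht0 hcd.le
  linarith

/-- if there is a new vertex, then `c` is unbounded on a ray -/
lemma ray_of_new {p₀ : Fin n → ℝ} (hp₀ : IsVertex A β p₀) (hq : Feas A β q) (h : μ ≤ c ⬝ᵥ q) :
    ∃ d, (∀ j, A j ⬝ᵥ d ≤ 0) ∧ 0 < c ⬝ᵥ d := by
  rcases exists_better (c := c) ((det_of_vertex hp₀).mono (subset_univ _)) _ hq le_rfl with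
    ⟨v, hv, hle⟩ | h'
  · exact absurd (h.trans hle) (not_le.2 (hμ v hv))
  · exact h'

end Pool.Agent.J4H23.Lex
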