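import Pool.Agent.J4H23.Lex.Cls
set_option autoImplicit false

/-!
# The final theorems for all linear programs
-/

namespace Pool.Agent.J4H23.Lex

open Finset Matrix Pool.Agent.N597.QP Pool.Agent.J4H23.Box

variable {m n : ℕ} {A : Fin m → Fin n → ℝ} {b β : Fin m → ℝ} {c : Fin n → ℝ} {μ : ℝ}

/-- the facts about the larger system -/
def Good (A : Fin m → Fin n → ℝ) (b : Fin m → ℝ) (c : Fin n → ℝ) (β : Fin m → ℝ) (μ : ℝ) : Prop :=
  Nondeg A β ∧ VV A β = LexBasis A b ∧ Large A β c μ ∧ ∃ p₀, IsVertex A β p₀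

theorem run_main (m n : ℕ) (hm : 1 ≤ m) :
    ∃ rule : List (Finset (Fin m) × Finset (Fin m)) → Fin m,
      ∀ (A : Fin m → Fin n → ℝ) (b : Fin m → ℝ) (c : Fin n → ℝ) (B₀ : Finset (Fin m)),
        LexBasis A b B₀ →
        ∃ (T : ℕ) (B : ℕ → Finset (Fin m)) (q : ℕ → Fin n → ℝ), IsRun rule A b c B₀ T B q ∧
          ∃ (β : Fin m → ℝ) (μ : ℝ) (hA : Nondeg (xA A c) (xb β μ)), Good A b c β μ ∧
            (DirectLP (xA A c) (xb β μ) c → T ≤ P₁ (m + 1) n) ∧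
            (∀ g N₀, 1 ≤ N₀ → Dp (model (m + 1) n) N₀ g (typ hA bdd_x) univ ∅ →
              T ≤ bd (m + 1) n g N₀) ∧ T ≤ gb (m + 1) n := by
  classical
  obtain ⟨rule, h⟩ := lex_main m n hm
  refine ⟨rule, fun A b c B₀ hB₀ => ?_⟩
  obtain ⟨β, μ, hA, hnd, hV, hμ, T, B, h0, h1, h2, h3, h4, h5, h6⟩ := h A b c B₀ hB₀
  obtain ⟨p₀, hp₀, -⟩ := (hV B₀).2 hB₀
  set q : ℕ → Fin n → ℝ := fun t => if ht : (B t).card = n then sol A (B t) ht b else 0 with hq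
  have hqt : ∀ t ≤ T, IsVertex A b (q t) ∧ B t ⊆ tight A b (q t) := by
    intro t ht
    have h7 := h1 t ht
    have h8 : q t = sol A (B t) h7.card b := by
      rw [hq]
      simp only
      rw [dif_pos h7.card]
    rw [h8]
    exact h7.vertex
  refine ⟨T, B, q, ⟨h0, fun t ht => ⟨h1 t ht, hqt t ht⟩, fun t ht => ?_, ?_⟩, β, μ, hA,
    ⟨hnd, funext fun B => propext (hV B), hμ, p₀, hp₀⟩, h4, h5, h6⟩
  · obtain ⟨a1, a2, a3⟩ := h2 t ht
    refine ⟨a1, a2, a3, ?_⟩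
    obtain ⟨b1, b2⟩ := hqt t ht.le
    obtain ⟨c1, c2⟩ := hqt (t + 1) ht
    exact pivot_le (h1 t ht.le).det (fun i hi => mem_tight.1 (b2 hi)) a1 c1.1 (a2.trans c2)
  · rcases h3 with h | h
    · left
      obtain ⟨b1, b2⟩ := hqt T le_rfl
      exact ⟨h, fun p hp => opt_of_impr (h1 T le_rfl).det (h1 T le_rfl).card
        (fun i hi => mem_tight.1 (b2 hi)) h hp⟩
    · exact Or.inr h

/-- the bounds for the combinatorial classes -/
theorem bounds {T : ℕ} {β : Fin m → ℝ} {μ : ℝ} {hA : Nondeg (xA A c) (xb β μ)}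
    (hg : Good A b c β μ) (h4 : DirectLP (xA A c) (xb β μ) c → T ≤ P₁ (m + 1) n)
    (h5 : ∀ g N₀, 1 ≤ N₀ → Dp (model (m + 1) n) N₀ g (typ hA bdd_x) univ ∅ →
      T ≤ bd (m + 1) n g N₀) :
    ((∃ μ, ∀ p, Feas A b p → c ⬝ᵥ p ≤ μ) → BlockBases (LexBasis A b) → T ≤ P₁ (m + 1) n) ∧
      (∀ e, FewBases (LexBasis A b) n e → T ≤ bd (m + 1) n 2 (2 ^ (e + 3))) ∧
      (∀ k r, ProductBases (LexBasis A b) n k r →
        T ≤ bd (m + 1) n (2 * k + 2) (2 ^ ((k + 1) * (2 * (r + 1) + 1) + (r + 1)))) := by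
  obtain ⟨hnd, hV, hμ, p₀, hp₀⟩ := hg
  rw [← hV]
  refine ⟨fun hb hB => h4 ?_, fun e he => ?_, fun k r hkr => ?_⟩
  · refine (hB.ext (c := c) (μ := μ) fun q hq h => ?_).direct hA bdd_x
    obtain ⟨d, hd, hcd⟩ := ray_of_new (c := c) hμ hp₀ (feas_x.1 hq.1).1 (le_of_eq h.symm)
    -- `c` is unbounded on the original polyhedron
    have hl : LexBasis A b (tight A β p₀) := by rw [← hV]; exact ⟨p₀, hp₀, rfl⟩
    obtain ⟨hv, -⟩ := hl.vertex
    set v := sol A (tight A β p₀) hl.card b with hvd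
    obtain ⟨ν, hν⟩ := hb
    have h1 := hν (v + ((|ν - c ⬝ᵥ v| + 1) / (c ⬝ᵥ d)) • d) fun i => by
      rw [dotProduct_add, dotProduct_smul, smul_eq_mul]
      have h2 := hv.1 i
      have h3 : (|ν - c ⬝ᵥ v| + 1) / (c ⬝ᵥ d) * (A i ⬝ᵥ d) ≤ 0 :=
        mul_nonpos_of_nonneg_of_nonpos (by positivity) (hd i)
      linarith
    rw [dotProduct_add, dotProduct_smul, smul_eq_mul, div_mul_cancel₀ _ hcd.ne'] at h1
    have := le_abs_self (ν - c ⬝ᵥ v)
    linarith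
  · exact h5 2 _ Nat.one_le_two_pow
      (((he.ext hnd hμ hp₀).excess hA (typ hA bdd_x) rfl).dp (optMax_model (m + 1) n))
  · exact h5 _ _ Nat.one_le_two_pow
      (((hkr.ext (c := c) hnd hμ hp₀).blocky (c := c) (typ hA bdd_x) rfl).dp
        (optMax_model (m + 1) n))

/-! ### Nested block structures -/

/-- the exponent -/
def kap (D : ℕ) : ℕ :=
  27 + 22 * (cs D).1 + 2 * ((cs D).2.1 * (2 * (cs D).1 + 1)) +
    (cs D).2.2 * ((cs D).2.1 * (2 * (cs D).1 + 1))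

lemma bd_le {M n g N₀ : ℕ} (hM : 2 ≤ M) (hn : n ≤ M) (hN : 1 ≤ N₀) :
    bd M n g N₀ ≤ (M + 1) ^ (12 + 11 * g) * N₀ := by
  have h3 : 3 ≤ M + 1 := by omega
  have hM1 : M ≤ M + 1 := by omega
  have e1 : P₁ M n ≤ (M + 1) ^ 11 := by
    have a1 : 12 ≤ (M + 1) ^ 3 := by
      calc 12 ≤ 3 ^ 3 := by norm_num
        _ ≤ _ := Nat.pow_le_pow_left h3 3
    have a2 : M ^ 5 ≤ (M + 1) ^ 5 := Nat.pow_le_pow_left hM1 5
    have a3 : n * (n + 1) ≤ (M + 1) * (M + 1) := Nat.mul_le_mul (by omega) (by omega)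
    have a4 : 12 * M ^ 5 * (n * (n + 1)) ≤ (M + 1) ^ 10 := by
      calc 12 * M ^ 5 * (n * (n + 1)) ≤ (M + 1) ^ 3 * (M + 1) ^ 5 * ((M + 1) * (M + 1)) :=
            Nat.mul_le_mul (Nat.mul_le_mul a1 a2) a3
        _ = (M + 1) ^ 10 := by ring
    have a5 : n ≤ (M + 1) ^ 10 := by
      calc n ≤ M + 1 := by omega
        _ = (M + 1) ^ 1 := (pow_one _).symm
        _ ≤ (M + 1) ^ 10 := Nat.pow_le_pow_right (by omega) (by norm_num)
    unfold P₁
    calc n + 12 * M ^ 5 * (n * (n + 1)) ≤ 2 * (M + 1) ^ 10 := by omega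
      _ ≤ (M + 1) * (M + 1) ^ 10 := Nat.mul_le_mul_right _ (by omega)
      _ = (M + 1) ^ 11 := by ring
  have e2 : 20 * (M + 1) ^ 2 ≤ (M + 1) ^ 5 := by
    calc 20 * (M + 1) ^ 2 ≤ 3 ^ 3 * (M + 1) ^ 2 := Nat.mul_le_mul_right _ (by norm_num)
      _ ≤ (M + 1) ^ 3 * (M + 1) ^ 2 := Nat.mul_le_mul_right _ (Nat.pow_le_pow_left h3 3)
      _ = (M + 1) ^ 5 := by ring
  have e3 : 50 * M ^ 7 ≤ (M + 1) ^ 11 := by
    calc 50 * M ^ 7 ≤ 3 ^ 4 * (M + 1) ^ 7 :=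
          Nat.mul_le_mul (by norm_num) (Nat.pow_le_pow_left hM1 7)
      _ ≤ (M + 1) ^ 4 * (M + 1) ^ 7 := Nat.mul_le_mul_right _ (Nat.pow_le_pow_left h3 4)
      _ = (M + 1) ^ 11 := by ring
  have e4 : (50 * M ^ 7) ^ g ≤ (M + 1) ^ (11 * g) := by
    calc (50 * M ^ 7) ^ g ≤ ((M + 1) ^ 11) ^ g := Nat.pow_le_pow_left e3 g
      _ = (M + 1) ^ (11 * g) := by rw [← pow_mul]
  have e5 : 1 ≤ (M + 1) ^ (11 * g) := Nat.one_le_pow _ _ (by omega)
  have e6 : 20 * (M + 1) ^ 2 * ((50 * M ^ 7) ^ g * N₀) ≤ (M + 1) ^ 11 * ((M + 1) ^ (11 * g) * N₀) := by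
    refine Nat.mul_le_mul (e2.trans ?_) (Nat.mul_le_mul_right _ e4)
    exact Nat.pow_le_pow_right (by omega) (by norm_num)
  have e7 : P₁ M n ≤ (M + 1) ^ 11 * ((M + 1) ^ (11 * g) * N₀) := by
    refine e1.trans (Nat.le_mul_of_pos_right _ ?_)
    exact Nat.mul_pos e5 hN
  unfold bd
  calc P₁ M n + 20 * (M + 1) ^ 2 * ((50 * M ^ 7) ^ g * N₀)
      ≤ 2 * ((M + 1) ^ 11 * ((M + 1) ^ (11 * g) * N₀)) := by omega
    _ ≤ (M + 1) * ((M + 1) ^ 11 * ((M + 1) ^ (11 * g) * N₀)) := Nat.mul_le_mul_right _ (by omega)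
    _ = (M + 1) ^ (12 + 11 * g) * N₀ := by rw [pow_add]; ring

theorem nested_bounds {T : ℕ} {β : Fin m → ℝ} {μ : ℝ} {hA : Nondeg (xA A c) (xb β μ)}
    (hm : 1 ≤ m) (hnm : n ≤ m)
    (h5 : ∀ g N₀, 1 ≤ N₀ → Dp (model (m + 1) n) N₀ g (typ hA bdd_x) univ ∅ →
      T ≤ bd (m + 1) n g N₀) {D : ℕ} {X : Finset (Fin n)} {R : Finset (Fin m)}
    (hn : Lex.Nested A D X R) :
    T ≤ (m + 1) ^ (kap D * (1 + (m - R.card) + (n - X.card))) ∧
      (X = univ → T ≤ ((m + 1) * 2 ^ (m - R.card)) ^ kap D) := by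
  have hR : R.card ≤ m := by
    have := card_le_univ R
    rwa [Fintype.card_fin] at this
  set e := m - R.card with he
  set f := n - X.card with hf
  have he' : m + 1 - (up1 R).card = e + 1 := by
    rw [card_up1]
    omega
  set G := (cs D).1 with hG
  set K := (cs D).2.1 with hK
  set k := (cs D).2.2 with hk
  have hkap : kap D = 27 + 22 * G + 2 * (K * (2 * G + 1)) + k * (K * (2 * G + 1)) := rfl
  have hsq : m + 1 + 1 ≤ (m + 1) ^ 2 := by nlinarith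
  have hn' : Box.Nested (xA A c) D X (up1 R) := nested_ext hn
  constructor
  · have h1 := h5 G _ (Nat.one_le_pow _ _ (by omega))
      (hn'.dpX hA (typ hA bdd_x) rfl)
    rw [he'] at h1
    refine h1.trans ((bd_le (by omega) (by omega) (Nat.one_le_pow _ _ (by omega))).trans ?_)
    rw [← pow_add]
    refine (Nat.pow_le_pow_left hsq _).trans ?_
    rw [← pow_mul]
    refine Nat.pow_le_pow_right (by omega) ?_
    have h2 : ds D (e + 1) f ≤ (K * (2 * G + 1) + 1) * (1 + e + f) := by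
      have h3 : ds D (e + 1) f = K * (G * (1 + (e + 1)) + (e + 1)) + f := rfl
      rw [h3]
      have h4 : G * (1 + (e + 1)) + (e + 1) ≤ (2 * G + 1) * (1 + e) := by nlinarith
      calc K * (G * (1 + (e + 1)) + (e + 1)) + f ≤ K * ((2 * G + 1) * (1 + e)) + f :=
            Nat.add_le_add_right (Nat.mul_le_mul_left _ h4) _
        _ ≤ (K * (2 * G + 1) + 1) * (1 + e + f) := by nlinarith [Nat.zero_le (K * (2 * G + 1) * f)]
    have h6 : 12 + 11 * G ≤ (12 + 11 * G) * (1 + e + f) := Nat.le_mul_of_pos_right _ (by omega)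
    calc 2 * (12 + 11 * G + ds D (e + 1) f)
        ≤ 2 * ((12 + 11 * G) * (1 + e + f) + (K * (2 * G + 1) + 1) * (1 + e + f)) := by omega
      _ = (26 + 22 * G + 2 * (K * (2 * G + 1))) * (1 + e + f) := by ring
      _ ≤ kap D * (1 + e + f) := by
          refine Nat.mul_le_mul_right _ ?_
          rw [hkap]
          have := Nat.zero_le (k * (K * (2 * G + 1)))
          omega
  · rintro rfl
    have h1 := h5 G _ Nat.one_le_two_pow (hn'.dp hA (typ hA bdd_x) rfl)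
    rw [he'] at h1
    refine h1.trans ((bd_le (by omega) (by omega) Nat.one_le_two_pow).trans ?_)
    set x := k * (K * (2 * G + 1)) + 1 with hx
    have h2 : xs D (e + 1) ≤ x * (1 + e) := by
      have h3 : xs D (e + 1) = k * (K * (G * (1 + (e + 1)) + (e + 1))) + (e + 1) := rfl
      rw [h3]
      have h4 : G * (1 + (e + 1)) + (e + 1) ≤ (2 * G + 1) * (1 + e) := by nlinarith
      calc k * (K * (G * (1 + (e + 1)) + (e + 1))) + (e + 1)
          ≤ k * (K * ((2 * G + 1) * (1 + e))) + (e + 1) :=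
            Nat.add_le_add_right (Nat.mul_le_mul_left _ (Nat.mul_le_mul_left _ h4)) _
        _ = x * (1 + e) := by rw [hx]; ring
    have h6 : 2 ^ xs D (e + 1) ≤ (m + 1) ^ x * (2 ^ e) ^ x := by
      calc 2 ^ xs D (e + 1) ≤ 2 ^ (x * (1 + e)) := Nat.pow_le_pow_right (by norm_num) h2
        _ = 2 ^ x * (2 ^ e) ^ x := by rw [← pow_mul, ← pow_add]; ring_nf
        _ ≤ (m + 1) ^ x * (2 ^ e) ^ x :=
            Nat.mul_le_mul_right _ (Nat.pow_le_pow_left (by omega) _)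
    have h7 : x ≤ kap D := by rw [hx, hkap]; omega
    calc (m + 1 + 1) ^ (12 + 11 * G) * 2 ^ xs D (e + 1)
        ≤ ((m + 1) ^ 2) ^ (12 + 11 * G) * ((m + 1) ^ x * (2 ^ e) ^ x) :=
          Nat.mul_le_mul (Nat.pow_le_pow_left hsq _) h6
      _ = (m + 1) ^ (2 * (12 + 11 * G) + x) * (2 ^ e) ^ x := by
          rw [← pow_mul, ← mul_assoc, ← pow_add]
      _ ≤ (m + 1) ^ kap D * (2 ^ e) ^ kap D := by
          refine Nat.mul_le_mul (Nat.pow_le_pow_right (by omega) ?_)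
            (Nat.pow_le_pow_right Nat.one_le_two_pow h7)
          rw [hkap, hx]
          omega
      _ = ((m + 1) * 2 ^ e) ^ kap D := by rw [mul_pow]

end Pool.Agent.J4H23.Lex
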