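import Pool.Agent.J4H23.Lex.Ext
set_option autoImplicit false

/-!
# The rule for all linear programs
-/

namespace Pool.Agent.J4H23.Lex

open Finset Matrix Pool.Agent.N597.QP Pool.Agent.J4H23.Box Filter Topology

variable {m n : ℕ} {A : Fin m → Fin n → ℝ} {b β : Fin m → ℝ} {c : Fin n → ℝ}
  {B T : Finset (Fin m)} {μ : ℝ} {q : Fin n → ℝ}

lemma mem_impr {r : Fin m} : r ∈ impr A c B ↔ r ∈ B ∧ ∃ d : Fin n → ℝ,
    (∀ i ∈ B, i ≠ r → A i ⬝ᵥ d = 0) ∧ A r ⬝ᵥ d < 0 ∧ 0 < c ⬝ᵥ d := by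
  classical
  unfold impr
  rw [mem_filter]

lemma improv_x (hnd : Nondeg (xA A c) (xb β μ))
    (hbd : ∃ μ', ∀ p, Feas (xA A c) (xb β μ) p → c ⬝ᵥ p ≤ μ') (hq : IsVertex A β q)
    (h : c ⬝ᵥ q < μ) : improv (xA A c) (xb β μ) c q = up1 (impr A c (tight A β q)) := by
  have hqx := vertex_x hq h.le
  have htx : tight (xA A c) (xb β μ) q = up1 (tight A β q) := tight_x h.ne
  ext r
  refine Fin.lastCases ?_ (fun r => ?_) r
  · refine ⟨fun hr => ?_, fun hr => absurd hr last_up1⟩
    have h1 := (mem_improv.1 hr).1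
    rw [htx] at h1
    exact absurd h1 last_up1
  · rw [mem_up1, mem_impr]
    constructor
    · intro hr
      obtain ⟨h1, q', hq', hlt, hsub⟩ := mem_improv.1 hr
      rw [tight_cast] at h1
      have h2 : ∀ i ∈ tight A β q, i ≠ r → A i ⬝ᵥ (q' - q) = 0 := by
        intro i hi hir
        have h3 := hsub (mem_erase.2 ⟨fun h' => hir (Fin.castSucc_injective m h'),
          tight_cast.2 hi⟩)
        rw [tight_cast, mem_tight] at h3
        rw [dotProduct_sub, h3, mem_tight.1 hi, sub_self]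
      have h4 : 0 < c ⬝ᵥ (q' - q) := by rw [dotProduct_sub]; linarith
      refine ⟨h1, q' - q, h2, ?_, h4⟩
      have h5 : A r ⬝ᵥ (q' - q) ≤ 0 := by
        have := (feas_x.1 hq'.1).1 r
        rw [dotProduct_sub, mem_tight.1 h1]
        linarith
      refine lt_of_le_of_ne h5 fun h0 => ?_
      have : q' - q = 0 := det_of_vertex hq _ fun i hi => by
        by_cases hir : i = r
        · rw [hir]; exact h0
        · exact h2 i hi hir
      rw [this, dotProduct_zero] at h4
      exact lt_irrefl _ h4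
    · rintro ⟨h1, d, h2, h3, h4⟩
      have hc := hnd q hqx
      obtain ⟨y, hy⟩ := hqx.exists_mult hc c
      obtain ⟨k, hk⟩ := (range_num _ hc r.castSucc).1 (tight_cast.2 h1)
      have h5 : c ⬝ᵥ d = y k * (A r ⬝ᵥ d) := by
        rw [dot_mult hy, sum_eq_single k]
        · rw [hk, xA_cast]
        · intro l _ hl
          have h6 := (Finset.ext_iff.1 htx _).1 (num_mem _ hc l)
          obtain ⟨i, hi, hie⟩ := mem_map.1 h6
          have hie' : i.castSucc = num (tight (xA A c) (xb β μ) q) hc l := hie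
          rw [← hie', xA_cast, h2 i hi, mul_zero]
          rintro rfl
          exact hl (num_inj _ hc (hie'.symm.trans hk.symm))
        · intro h'
          exact absurd (mem_univ _) h'
      have h7 : y k < 0 := by
        by_contra hcon
        have := mul_nonpos_of_nonneg_of_nonpos (not_lt.1 hcon) h3.le
        linarith
      have := neg_improv hqx hbd hy h7
      rwa [hk] at this

lemma bdd_x : ∃ μ', ∀ p, Feas (xA A c) (xb β μ) p → c ⬝ᵥ p ≤ μ' :=
  ⟨μ, fun _ hp => (feas_x.1 hp).2⟩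

/-- the bound from the relaxation depth, as a number -/
def bd (m n g N₀ : ℕ) : ℕ := P₁ m n + 20 * (m + 1) ^ 2 * ((50 * m ^ 7) ^ g * N₀)

/-- the general bound -/
def gb (m n : ℕ) : ℕ := P₁ m n + 5 * (m + 1) ^ 2 * Qp m

/-- **The rule for all linear programs.** -/
theorem lex_main (m n : ℕ) (hm : 1 ≤ m) :
    ∃ rule : List (Finset (Fin m) × Finset (Fin m)) → Fin m,
      ∀ (A : Fin m → Fin n → ℝ) (b : Fin m → ℝ) (c : Fin n → ℝ) (B₀ : Finset (Fin m)),
        LexBasis A b B₀ →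
        ∃ (β : Fin m → ℝ) (μ : ℝ) (hA : Nondeg (xA A c) (xb β μ)), Nondeg A β ∧
          (∀ B, VV A β B ↔ LexBasis A b B) ∧ Large A β c μ ∧
          ∃ (T : ℕ) (B : ℕ → Finset (Fin m)), B 0 = B₀ ∧ (∀ t ≤ T, LexBasis A b (B t)) ∧
            (∀ t < T, rule (seenB A c B t) ∈ impr A c (B t) ∧
              (B t).erase (rule (seenB A c B t)) ⊆ B (t + 1) ∧ B (t + 1) ≠ B t) ∧
            (impr A c (B T) = ∅ ∨ (rule (seenB A c B T) ∈ impr A c (B T) ∧ ∃ d : Fin n → ℝ,
              (∀ i ∈ B T, i ≠ rule (seenB A c B T) → A i ⬝ᵥ d = 0) ∧ (∀ i, A i ⬝ᵥ d ≤ 0) ∧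
              0 < c ⬝ᵥ d)) ∧
            (DirectLP (xA A c) (xb β μ) c → T ≤ P₁ (m + 1) n) ∧
            (∀ g N₀, 1 ≤ N₀ → Dp (model (m + 1) n) N₀ g (typ hA bdd_x) univ ∅ →
              T ≤ bd (m + 1) n g N₀) ∧ T ≤ gb (m + 1) n := by
  classical
  obtain ⟨rule', hrule⟩ := umain (m + 1) n (by omega)
  set lift : Finset (Fin m) × Finset (Fin m) → Finset (Fin (m + 1)) × Finset (Fin (m + 1)) :=
    fun p => (up1 p.1, up1 p.2) with hlift
  set dec : Fin (m + 1) → Fin m := fun x => if h : x.1 < m then ⟨x.1, h⟩ else ⟨0, hm⟩ with hdec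
  have hdc : ∀ i : Fin m, dec i.castSucc = i := by
    intro i
    rw [hdec]
    simp
  refine ⟨fun l => dec (rule' (l.map lift)), fun A b c B₀ hB₀ => ?_⟩
  set rule : List (Finset (Fin m) × Finset (Fin m)) → Fin m := fun l => dec (rule' (l.map lift))
    with hr
  obtain ⟨ε, hε1, hε2⟩ := ((ev_nondeg A b).and (ev_iff A b)).exists
  set β := pert b ε with hβ
  obtain ⟨μ, hμ⟩ := exists_large A β c
  obtain ⟨p₀, hp₀, hp₀B⟩ := (hε2 B₀).2 hB₀
  have hnd := nondeg_x hε1 hμ hp₀
  have hbd : ∃ μ', ∀ p, Feas (xA A c) (xb β μ) p → c ⬝ᵥ p ≤ μ' := bdd_x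
  have hp₀x := vertex_x hp₀ (hμ p₀ hp₀).le
  obtain ⟨T', q', g0, g1, g2, g3, g4, g5, g6⟩ := hrule (xA A c) (xb β μ) c hnd hbd p₀ hp₀x
  refine ⟨β, μ, hnd, hε1, hε2, hμ, ?_⟩
  -- the first step to a new vertex
  have hex : ∃ t, t = T' ∨ c ⬝ᵥ q' (t + 1) = μ := ⟨T', Or.inl rfl⟩
  set T := Nat.find hex with hT
  have hTT : T ≤ T' := Nat.find_le (Or.inl rfl)
  have hold : ∀ t ≤ T, IsVertex A β (q' t) := by
    intro t ht
    have hne : c ⬝ᵥ q' t ≠ μ := by
      cases t with
      | zero => rw [g0]; exact (hμ p₀ hp₀).ne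
      | succ t =>
        intro h
        exact Nat.find_min hex (show t < Nat.find hex by omega) (Or.inr h)
    exact vertex_of_x (g1 t (by omega)) hne
  set B : ℕ → Finset (Fin m) := fun t => tight A β (q' t) with hB
  have hlex : ∀ t ≤ T, LexBasis A b (B t) := fun t ht => (hε2 _).1 ⟨q' t, hold t ht, rfl⟩
  have hobs : ∀ t ≤ T, obs (xA A c) (xb β μ) c (q' t) = lift (B t, impr A c (B t)) := by
    intro t ht
    have h1 := hold t ht
    have h2 := hμ _ h1
    unfold obs
    rw [tight_x h2.ne, improv_x hnd hbd h1 h2]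
  have hseen : ∀ t ≤ T, seen (xA A c) (xb β μ) c q' t = (seenB A c B t).map lift := by
    intro t
    induction t with
    | zero => intro ht; simp only [seen, seenB, List.map_cons, List.map_nil]; rw [hobs 0 ht]
    | succ t ih =>
      intro ht
      simp only [seen, seenB, List.map_cons]
      rw [hobs (t + 1) ht, ih (by omega)]
  have hstep : ∀ t ≤ T, t < T' → rule (seenB A c B t) ∈ impr A c (B t) ∧
      rule' (seen (xA A c) (xb β μ) c q' t) = (rule (seenB A c B t)).castSucc := by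
    intro t ht ht'
    obtain ⟨-, h2, -⟩ := g2 t ht'
    have h1 := hold t ht
    rw [improv_x hnd hbd h1 (hμ _ h1)] at h2
    obtain ⟨i, hi, hie⟩ := mem_map.1 h2
    have hie' : i.castSucc = rule' (seen (xA A c) (xb β μ) c q' t) := hie
    have h3 : rule (seenB A c B t) = i := by
      rw [hr]
      simp only
      rw [← hseen t ht, ← hie', hdc]
    rw [h3]
    exact ⟨hi, hie'.symm⟩
  have hsub : ∀ t ≤ T, t < T' → (B t).erase (rule (seenB A c B t)) ⊆ B (t + 1) := by
    intro t ht ht' i hi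
    obtain ⟨hi1, hi2⟩ := mem_erase.1 hi
    obtain ⟨-, -, h4⟩ := g2 t ht'
    rw [(hstep t ht ht').2] at h4
    have h5 := h4 (mem_erase.2 ⟨fun h => hi1 (Fin.castSucc_injective m h), tight_cast.2 hi2⟩)
    rwa [tight_cast] at h5
  refine ⟨T, B, ?_, hlex, fun t ht => ⟨(hstep t ht.le (by omega)).1, hsub t ht.le (by omega), ?_⟩,
    ?_, fun h => hTT.trans (g4 h), fun g N₀ h1 h2 => hTT.trans (g5 g N₀ h1 h2), hTT.trans g6⟩
  · rw [hB]
    simp only
    rw [g0]
    exact hp₀B
  · intro heq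
    obtain ⟨h1, -, -⟩ := g2 t (by omega)
    have : q' (t + 1) = q' t := (hold t ht.le).2 _ fun i hi => mem_tight.1 (by
      change i ∈ B (t + 1)
      rw [heq]
      exact hi)
    rw [this] at h1
    exact lt_irrefl _ h1
  · rcases Nat.find_spec hex with h | h
    · left
      rw [eq_empty_iff_forall_notMem]
      intro r hr'
      have h1 := hold T le_rfl
      have h2 := mem_up1.2 hr'
      rw [hB] at h2
      simp only at h2
      rw [← improv_x hnd hbd h1 (hμ _ h1)] at h2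
      obtain ⟨-, q'', h3, h4, -⟩ := mem_improv.1 h2
      have h5 := g3 q'' h3.1
      have h6 : T = T' := h
      rw [← h6] at h5
      exact absurd h4 (not_lt.2 h5)
    · by_cases hTe : T = T'
      · left
        rw [eq_empty_iff_forall_notMem]
        intro r hr'
        have h1 := hold T le_rfl
        have h2 := mem_up1.2 hr'
        rw [hB] at h2
        simp only at h2
        rw [← improv_x hnd hbd h1 (hμ _ h1)] at h2
        obtain ⟨-, q'', h3, h4, -⟩ := mem_improv.1 h2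
        have h5 := g3 q'' h3.1
        rw [← hTe] at h5
        exact absurd h4 (not_lt.2 h5)
      · right
        have hlt : T < T' := lt_of_le_of_ne hTT hTe
        obtain ⟨h1, h2⟩ := hstep T le_rfl hlt
        refine ⟨h1, ?_⟩
        have h3 := (feas_x.1 (g1 (T + 1) (by omega)).1).1
        obtain ⟨r1, r2, r3, r4⟩ := ray_of_edge hμ (hold T le_rfl) h3 (le_of_eq h.symm)
          (mem_impr.1 h1).1 (hsub T le_rfl hlt)
        exact ⟨_, r1, r3, r4⟩

/-- a pivot does not decrease the objective function -/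
lemma pivot_le {q q' : Fin n → ℝ} (hB : Det A B) (hq : ∀ i ∈ B, A i ⬝ᵥ q = b i) {r : Fin m}
    (hr : r ∈ impr A c B) (hq' : Feas A b q') (hsub : B.erase r ⊆ tight A b q') :
    q' = q ∨ c ⬝ᵥ q < c ⬝ᵥ q' := by
  obtain ⟨hrB, d, h1, h2, h3⟩ := mem_impr.1 hr
  set x := q' - q with hx
  have hxB : ∀ i ∈ B, i ≠ r → A i ⬝ᵥ x = 0 := by
    intro i hi hir
    rw [hx, dotProduct_sub, hq i hi, mem_tight.1 (hsub (mem_erase.2 ⟨hir, hi⟩)), sub_self]
  have h4 : x = (A r ⬝ᵥ x / (A r ⬝ᵥ d)) • d := by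
    rw [← sub_eq_zero]
    refine hB _ fun i hi => ?_
    rw [dotProduct_sub, dotProduct_smul, smul_eq_mul]
    by_cases hir : i = r
    · rw [hir, div_mul_cancel₀ _ h2.ne, sub_self]
    · rw [hxB i hi hir, h1 i hi hir, mul_zero, sub_zero]
  have h5 : A r ⬝ᵥ x ≤ 0 := by
    rw [hx, dotProduct_sub, hq r hrB]
    have := hq' r
    linarith
  rcases h5.lt_or_eq with h | h
  · right
    have h6 : 0 < A r ⬝ᵥ x / (A r ⬝ᵥ d) := div_pos_of_neg_of_neg h h2
    have h7 : c ⬝ᵥ x = (A r ⬝ᵥ x / (A r ⬝ᵥ d)) * (c ⬝ᵥ d) := by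
      conv_lhs => rw [h4]
      rw [dotProduct_smul, smul_eq_mul]
    have h8 := mul_pos h6 h3
    rw [← h7, hx, dotProduct_sub] at h8
    linarith
  · left
    rw [h, zero_div, zero_smul] at h4
    exact sub_eq_zero.1 h4

/-- a basis without improving rows is optimal -/
lemma opt_of_impr (hB : Det A B) (hc : B.card = n) (hq : ∀ i ∈ B, A i ⬝ᵥ q = b i)
    (h : impr A c B = ∅) {p : Fin n → ℝ} (hp : Feas A b p) : c ⬝ᵥ p ≤ c ⬝ᵥ q := by
  set Mt := rowMat A (num B hc) with hMt
  have hu : IsUnit Mt.det := hB.unit hc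
  have hy : c = ∑ k, (c ᵥ* Mt⁻¹) k • Mt k := by
    have e : (c ᵥ* Mt⁻¹) ᵥ* Mt = c := by
      rw [vecMul_vecMul, nonsing_inv_mul _ hu, vecMul_one]
    conv_lhs => rw [← e]
    rw [vecMul_eq_sum]
  set y := c ᵥ* Mt⁻¹ with hyd
  have h1 : ∀ k, 0 ≤ y k := by
    intro k
    by_contra hcon
    push Not at hcon
    set d : Fin n → ℝ := Mt⁻¹ *ᵥ (Pi.single k (-1)) with hd
    have hMd : Mt *ᵥ d = Pi.single k (-1) := by
      rw [hd, mulVec_mulVec, mul_nonsing_inv _ hu, one_mulVec]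
    have hAd : ∀ l, A (num B hc l) ⬝ᵥ d = (Pi.single k (-1) : Fin n → ℝ) l := fun l =>
      congrFun hMd l
    have : num B hc k ∈ impr A c B := by
      refine mem_impr.2 ⟨num_mem _ hc k, d, fun i hi hik => ?_, ?_, ?_⟩
      · obtain ⟨l, rfl⟩ := (range_num _ hc i).1 hi
        have hlk : l ≠ k := fun h' => hik (by rw [h'])
        rw [hAd]
        simp [hlk]
      · rw [hAd]; simp
      · rw [dot_mult hy, sum_eq_single k]
        · rw [hAd]
          simp only [Pi.single_eq_same]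
          linarith
        · intro l _ hl
          rw [hAd]
          simp [hl]
        · intro h'
          exact absurd (mem_univ _) h'
    rw [h] at this
    exact notMem_empty _ this
  have h2 : c ⬝ᵥ (p - q) ≤ 0 := by
    rw [dot_mult hy]
    refine sum_nonpos fun k _ => mul_nonpos_of_nonneg_of_nonpos (h1 k) ?_
    rw [dotProduct_sub, hq _ (num_mem _ hc k)]
    have := hp (num B hc k)
    linarith
  rw [dotProduct_sub] at h2
  linarith

end Pool.Agent.J4H23.Lex
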