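import Pool.Agent.J4H23.Box.Prod
import Pool.Agent.J4H23.Lex.Defs
set_option autoImplicit false

/-!
# Perturbation of the right hand sides (the lexicographic rule)
-/

namespace Pool.Agent.J4H23.Lex

open Finset Matrix Pool.Agent.N597.QP Pool.Agent.J4H23.Box Filter Topology Polynomial

variable {m n : ℕ} {A : Fin m → Fin n → ℝ} {b β : Fin m → ℝ} {c : Fin n → ℝ}
  {B T : Finset (Fin m)}

lemma lexBasis_iff : LexBasis A b B ↔ ∀ᶠ ε in 𝓝[>] (0 : ℝ), VV A (pert b ε) B := by
  constructor
  · rintro ⟨ε₀, h0, h⟩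
    filter_upwards [Ioo_mem_nhdsGT h0] with ε hε
    exact h ε hε.1 hε.2
  · intro h
    obtain ⟨u, hu, hs⟩ := mem_nhdsGT_iff_exists_Ioo_subset.1 h
    exact ⟨u, hu, fun ε h1 h2 => hs ⟨h1, h2⟩⟩

/-- the rows in `B` have no common zero -/
def Det (A : Fin m → Fin n → ℝ) (B : Finset (Fin m)) : Prop :=
  ∀ z : Fin n → ℝ, (∀ i ∈ B, A i ⬝ᵥ z = 0) → z = 0

lemma det_of_vertex {q : Fin n → ℝ} (h : IsVertex A β q) : Det A (tight A β q) := by
  intro z hz
  have h1 := h.2 (q + z) fun i hi => by
    rw [dotProduct_add, hz i hi, add_zero]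
    exact mem_tight.1 hi
  simpa using h1

lemma det_of_VV (h : VV A β B) : Det A B := by
  obtain ⟨q, hq, rfl⟩ := h
  exact det_of_vertex hq

lemma Det.card_le (h : Det A T) : n ≤ T.card := by
  classical
  set f : (Fin n → ℝ) →ₗ[ℝ] (T → ℝ) := Matrix.mulVecLin (Matrix.of fun (i : T) j => A i j) with hf
  have hinj : Function.Injective f := by
    rw [injective_iff_map_eq_zero]
    intro z hz
    refine h z fun i hi => ?_
    exact congrFun hz ⟨i, hi⟩
  have := LinearMap.finrank_le_finrank_of_injective hinj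
  simpa using this

lemma Det.erase (h : Det A T) (hc : n < T.card) : ∃ k ∈ T, Det A (T.erase k) := by
  classical
  set f : (T → ℝ) →ₗ[ℝ] (Fin n → ℝ) := Matrix.vecMulLinear (Matrix.of fun (i : T) j => A i j)
    with hf
  have hker : LinearMap.ker f ≠ ⊥ := by
    apply LinearMap.ker_ne_bot_of_finrank_lt
    simpa using hc
  obtain ⟨l, hl, hl0⟩ := (Submodule.ne_bot_iff _).1 hker
  obtain ⟨k, hk⟩ := Function.ne_iff.1 hl0
  refine ⟨k, k.2, fun z hz => h z fun i hi => ?_⟩
  by_cases hik : i = k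
  · subst hik
    have h1 : ∑ i : T, l i * (A i ⬝ᵥ z) = 0 := by
      have h2 : l ᵥ* (Matrix.of fun (i : T) j => A i j) = 0 := hl
      have h3 : (l ᵥ* (Matrix.of fun (i : T) j => A i j)) ⬝ᵥ z = 0 := by rw [h2, zero_dotProduct]
      rw [← dotProduct_mulVec] at h3
      exact h3
    rw [sum_eq_single k] at h1
    · exact (mul_eq_zero.1 h1).resolve_left hk
    · intro j _ hj
      rw [hz j (mem_erase.2 ⟨fun h => hj (Subtype.ext h), j.2⟩), mul_zero]
    · intro h
      exact absurd (mem_univ _) h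
  · exact hz i (mem_erase.2 ⟨hik, hi⟩)

/-- a basis among the rows -/
lemma Det.exists_basis : ∀ (N : ℕ) {T : Finset (Fin m)}, T.card ≤ N → Det A T →
    ∃ B ⊆ T, B.card = n ∧ Det A B := by
  intro N
  induction N with
  | zero =>
    intro T hN h
    have := h.card_le
    exact ⟨T, Subset.refl _, by omega, h⟩
  | succ N ih =>
    intro T hN h
    by_cases hc : n < T.card
    · obtain ⟨k, hk, h'⟩ := h.erase hc
      obtain ⟨B, h1, h2⟩ := ih (by rw [card_erase_of_mem hk]; omega) h'
      exact ⟨B, h1.trans (erase_subset _ _), h2⟩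
    · have := h.card_le
      exact ⟨T, Subset.refl _, by omega, h⟩

/-- the basic solution -/
noncomputable def sol (A : Fin m → Fin n → ℝ) (B : Finset (Fin m)) (h : B.card = n)
    (β : Fin m → ℝ) : Fin n → ℝ := (rowMat A (num B h))⁻¹ *ᵥ fun k => β (num B h k)

lemma Det.unit (hD : Det A B) (h : B.card = n) : IsUnit (rowMat A (num B h)).det := by
  rw [isUnit_iff_ne_zero]
  intro h0
  obtain ⟨v, hv, hv0⟩ := Matrix.exists_mulVec_eq_zero_iff.2 h0
  apply hv
  apply hD
  intro i hi
  obtain ⟨k, rfl⟩ := (range_num _ h i).1 hi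
  exact congrFun hv0 k

lemma sol_eq (hD : Det A B) (h : B.card = n) {i : Fin m} (hi : i ∈ B) :
    A i ⬝ᵥ sol A B h β = β i := by
  obtain ⟨k, rfl⟩ := (range_num _ h i).1 hi
  have h1 : rowMat A (num B h) *ᵥ sol A B h β = fun k => β (num B h k) := by
    unfold sol
    rw [mulVec_mulVec, mul_nonsing_inv _ (hD.unit h), one_mulVec]
  exact congrFun h1 k

lemma eq_sol (hD : Det A B) (h : B.card = n) {q : Fin n → ℝ} (hq : ∀ i ∈ B, A i ⬝ᵥ q = β i) :
    q = sol A B h β := by
  have h1 := hD (q - sol A B h β) fun i hi => by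
    rw [dotProduct_sub, hq i hi, sol_eq hD h hi, sub_self]
  exact sub_eq_zero.1 h1

/-- the distance of the basic solution from the row `j`, as a polynomial in `ε` -/
noncomputable def gp (A : Fin m → Fin n → ℝ) (b : Fin m → ℝ) (B : Finset (Fin m))
    (h : B.card = n) (j : Fin m) : ℝ[X] :=
  C (b j - A j ⬝ᵥ sol A B h b) + X ^ ((j : ℕ) + 1) -
    ∑ k, C ((A j ᵥ* (rowMat A (num B h))⁻¹) k) * X ^ ((num B h k : ℕ) + 1)

lemma dot_sol (h : B.card = n) (x : Fin n → ℝ) : x ⬝ᵥ sol A B h β =
    ∑ k, (x ᵥ* (rowMat A (num B h))⁻¹) k * β (num B h k) := by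
  unfold sol
  rw [dotProduct_mulVec]
  rfl

lemma eval_gp (h : B.card = n) (j : Fin m) (ε : ℝ) :
    (gp A b B h j).eval ε = pert b ε j - A j ⬝ᵥ sol A B h (pert b ε) := by
  unfold gp
  rw [dot_sol, dot_sol]
  simp only [eval_sub, eval_add, eval_C, eval_pow, eval_X, eval_finsetSum, eval_mul, pert, mul_add,
    sum_add_distrib]
  ring

lemma gp_ne (h : B.card = n) {j : Fin m} (hj : j ∉ B) : gp A b B h j ≠ 0 := by
  intro h0
  have h1 : (gp A b B h j).coeff ((j : ℕ) + 1) = 1 := by
    unfold gp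
    rw [coeff_sub, coeff_add, finsetSum_coeff, coeff_C_of_ne_zero (Nat.succ_ne_zero _),
      coeff_X_pow, if_pos rfl, sum_eq_zero]
    · ring
    · intro k _
      rw [coeff_C_mul, coeff_X_pow, if_neg, mul_zero]
      intro hk
      apply hj
      have : j = num B h k := by
        apply Fin.ext
        omega
      rw [this]
      exact num_mem _ h k
  rw [h0, coeff_zero] at h1
  exact zero_ne_one h1

/-- a polynomial has a constant sign on the right of `0` -/
lemma poly_sign {P : ℝ[X]} (hP : P ≠ 0) : (∀ᶠ ε in 𝓝[>] (0 : ℝ), 0 < P.eval ε) ∨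
    ∀ᶠ ε in 𝓝[>] (0 : ℝ), P.eval ε < 0 := by
  obtain ⟨Q, h1, h2⟩ := Polynomial.exists_eq_pow_rootMultiplicity_mul_and_not_dvd P hP 0
  have h3 : Q.eval 0 ≠ 0 := fun h => h2 (dvd_iff_isRoot.2 h)
  have hc : Tendsto (fun ε => Q.eval ε) (𝓝[>] (0 : ℝ)) (𝓝 (Q.eval 0)) :=
    (Q.continuous.tendsto 0).mono_left nhdsWithin_le_nhds
  have hev : ∀ ε, P.eval ε = ε ^ (rootMultiplicity 0 P) * Q.eval ε := by
    intro ε
    conv_lhs => rw [h1]
    rw [eval_mul, eval_pow, eval_sub, eval_X, eval_C, sub_zero]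
  rcases lt_or_gt_of_ne h3 with h | h
  · right
    filter_upwards [hc.eventually_lt_const h, self_mem_nhdsWithin] with ε h4 h5
    rw [hev]
    exact mul_neg_of_pos_of_neg (pow_pos h5 _) h4
  · left
    filter_upwards [hc.eventually_const_lt h, self_mem_nhdsWithin] with ε h4 h5
    rw [hev]
    exact mul_pos (pow_pos h5 _) h4

lemma VV_iff_gap (hD : Det A B) (h : B.card = n) :
    VV A β B ↔ ∀ j, j ∉ B → A j ⬝ᵥ sol A B h β < β j := by
  constructor
  · rintro ⟨q, hq, hB⟩ j hj
    have e : q = sol A B h β := eq_sol hD h fun i hi => mem_tight.1 (hB ▸ hi)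
    rw [← e]
    refine lt_of_le_of_ne (hq.1 j) fun h' => hj ?_
    rw [← hB]
    exact mem_tight.2 h'
  · intro hlt
    have ht : tight A β (sol A B h β) = B := by
      ext i
      rw [mem_tight]
      constructor
      · intro h'
        by_contra hi
        exact (hlt i hi).ne h'
      · exact fun hi => sol_eq hD h hi
    refine ⟨sol A B h β, ⟨fun i => ?_, fun q' hq' => ?_⟩, ht⟩
    · by_cases hi : i ∈ B
      · exact (sol_eq hD h hi).le
      · exact (hlt i hi).le
    · rw [ht] at hq'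
      exact eq_sol hD h hq'

/-- small perturbations are nondegenerate -/
lemma ev_nondeg (A : Fin m → Fin n → ℝ) (b : Fin m → ℝ) :
    ∀ᶠ ε in 𝓝[>] (0 : ℝ), Nondeg A (pert b ε) := by
  have h1 : ∀ᶠ ε in 𝓝[>] (0 : ℝ), ∀ (B : Finset (Fin m)), ∀ (h : B.card = n), ∀ j, j ∉ B →
      (gp A b B h j).eval ε ≠ 0 := by
    rw [eventually_all]
    intro B
    by_cases h : B.card = n
    · have h2 : ∀ᶠ ε in 𝓝[>] (0 : ℝ), ∀ j, j ∉ B → (gp A b B h j).eval ε ≠ 0 := by
        rw [eventually_all]
        intro j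
        by_cases hj : j ∈ B
        · exact Eventually.of_forall fun _ h' => absurd hj h'
        · rcases poly_sign (gp_ne (A := A) (b := b) h hj) with h3 | h3
          · exact h3.mono fun ε h4 _ => h4.ne'
          · exact h3.mono fun ε h4 _ => h4.ne
      exact h2.mono fun ε h3 _ => h3
    · exact Eventually.of_forall fun _ h' => absurd h' h
  filter_upwards [h1] with ε hε q hq
  obtain ⟨B, hB, hc, hD⟩ := Det.exists_basis _ le_rfl (det_of_vertex hq)
  have e : q = sol A B hc (pert b ε) := eq_sol hD hc fun i hi => mem_tight.1 (hB hi)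
  have : tight A (pert b ε) q = B := by
    refine Subset.antisymm (fun j hj => ?_) hB
    by_contra hjB
    apply hε B hc j hjB
    rw [eval_gp, ← e, mem_tight.1 hj, sub_self]
  rw [this, hc]

/-- the vertices of small perturbations -/
lemma ev_iff (A : Fin m → Fin n → ℝ) (b : Fin m → ℝ) :
    ∀ᶠ ε in 𝓝[>] (0 : ℝ), ∀ B, VV A (pert b ε) B ↔ LexBasis A b B := by
  rw [eventually_all]
  intro B
  have key : (∀ᶠ ε in 𝓝[>] (0 : ℝ), VV A (pert b ε) B) ∨
      ∀ᶠ ε in 𝓝[>] (0 : ℝ), ¬ VV A (pert b ε) B := by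
    by_cases h : B.card = n
    swap
    · right
      filter_upwards [ev_nondeg A b] with ε hε hV
      obtain ⟨q, hq, rfl⟩ := hV
      exact h (hε q hq)
    by_cases hD : Det A B
    swap
    · exact Or.inr (Eventually.of_forall fun ε hV => hD (det_of_VV hV))
    by_cases hall : ∀ j, j ∉ B → ∀ᶠ ε in 𝓝[>] (0 : ℝ), 0 < (gp A b B h j).eval ε
    · left
      have h1 : ∀ᶠ ε in 𝓝[>] (0 : ℝ), ∀ j, j ∉ B → 0 < (gp A b B h j).eval ε := by
        rw [eventually_all]
        intro j
        by_cases hj : j ∈ B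
        · exact Eventually.of_forall fun _ h' => absurd hj h'
        · exact (hall j hj).mono fun _ h' _ => h'
      filter_upwards [h1] with ε hε
      rw [VV_iff_gap hD h]
      intro j hj
      have := hε j hj
      rw [eval_gp] at this
      linarith
    · right
      obtain ⟨j, hjn⟩ := not_forall.1 hall
      obtain ⟨hj, hn⟩ := Classical.not_imp.1 hjn
      have h1 := (poly_sign (gp_ne (A := A) (b := b) h hj)).resolve_left hn
      filter_upwards [h1] with ε hε hV
      have := (VV_iff_gap hD h).1 hV j hj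
      rw [eval_gp] at hε
      linarith
  rcases key with h | h
  · filter_upwards [h] with ε hε
    exact ⟨fun _ => lexBasis_iff.2 h, fun _ => hε⟩
  · filter_upwards [h] with ε hε
    refine ⟨fun h' => absurd h' hε, fun h' => ?_⟩
    exfalso
    obtain ⟨ε', h1, h2⟩ := (h.and (lexBasis_iff.1 h')).exists
    exact h1 h2

lemma LexBasis.card (h : LexBasis A b B) : B.card = n := by
  obtain ⟨ε, h1, h2⟩ := ((lexBasis_iff.1 h).and (ev_nondeg A b)).exists
  obtain ⟨q, hq, rfl⟩ := h1
  exact h2 q hq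

lemma LexBasis.det (h : LexBasis A b B) : Det A B := by
  obtain ⟨ε, h1⟩ := (lexBasis_iff.1 h).exists
  exact det_of_VV h1

lemma pert_zero (b : Fin m → ℝ) : pert b 0 = b := by
  funext i
  simp [pert]

/-- the basic solution of a lexicographically feasible basis is a vertex -/
lemma LexBasis.vertex (h : LexBasis A b B) :
    IsVertex A b (sol A B h.card b) ∧ B ⊆ tight A b (sol A B h.card b) := by
  have hsub : B ⊆ tight A b (sol A B h.card b) := fun i hi =>
    mem_tight.2 (sol_eq h.det h.card hi)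
  refine ⟨⟨fun j => ?_, fun q' hq' => ?_⟩, hsub⟩
  · by_cases hj : j ∈ B
    · exact (sol_eq h.det h.card hj).le
    · by_contra hcon
      push Not at hcon
      have h0 : (gp A b B h.card j).eval 0 < 0 := by
        rw [eval_gp, pert_zero]
        linarith
      have hc : Tendsto (fun ε => (gp A b B h.card j).eval ε) (𝓝[>] (0 : ℝ))
          (𝓝 ((gp A b B h.card j).eval 0)) :=
        ((gp A b B h.card j).continuous.tendsto 0).mono_left nhdsWithin_le_nhds
      obtain ⟨ε, h1, h2⟩ := ((hc.eventually_lt_const h0).and (lexBasis_iff.1 h)).exists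
      have := (VV_iff_gap h.det h.card).1 h2 j hj
      rw [eval_gp] at h1
      linarith
  · exact eq_sol h.det h.card fun i hi => hq' i (hsub hi)

end Pool.Agent.J4H23.Lex
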