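import Pool.Agent.J4H23.Lex.Pert
set_option autoImplicit false

/-!
# Better vertices and rays; the start basis
-/

namespace Pool.Agent.J4H23.Lex

open Finset Matrix Pool.Agent.N597.QP Pool.Agent.J4H23.Box Filter Topology

variable {m n : ℕ} {A : Fin m → Fin n → ℝ} {b β : Fin m → ℝ} {c : Fin n → ℝ}
  {B T : Finset (Fin m)}

/-- moving until a further row is tight -/
lemma move {q z : Fin n → ℝ} (hq : Feas A β q) (hz : ∀ i ∈ tight A β q, A i ⬝ᵥ z = 0)
    {j : Fin m} (hj : 0 < A j ⬝ᵥ z) :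
    ∃ t : ℝ, 0 < t ∧ Feas A β (q + t • z) ∧ tight A β q ⊂ tight A β (q + t • z) ∧
      ∃ j, 0 < A j ⬝ᵥ z ∧ j ∈ tight A β (q + t • z) := by
  classical
  set Z := univ.filter fun r => 0 < A r ⬝ᵥ z with hZ
  obtain ⟨s, hs, hmin⟩ := exists_min_image Z (fun r => (β r - A r ⬝ᵥ q) / (A r ⬝ᵥ z))
    ⟨j, mem_filter.2 ⟨mem_univ _, hj⟩⟩
  have hsz : 0 < A s ⬝ᵥ z := (mem_filter.1 hs).2
  have hsB : s ∉ tight A β q := fun hsB => hsz.ne' (hz s hsB)
  have hslack : 0 < β s - A s ⬝ᵥ q := by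
    have h2 : A s ⬝ᵥ q ≠ β s := fun hh => hsB (mem_tight.2 hh)
    have := lt_of_le_of_ne (hq s) h2
    linarith
  set t := (β s - A s ⬝ᵥ q) / (A s ⬝ᵥ z) with ht
  have ht0 : 0 < t := div_pos hslack hsz
  have hdot : ∀ r, A r ⬝ᵥ (q + t • z) = A r ⬝ᵥ q + t * (A r ⬝ᵥ z) := by
    intro r; rw [dotProduct_add, dotProduct_smul, smul_eq_mul]
  have hst : s ∈ tight A β (q + t • z) := by
    rw [mem_tight, hdot, ht, div_mul_cancel₀ _ hsz.ne']
    ring
  refine ⟨t, ht0, fun r => ?_, ?_, s, hsz, hst⟩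
  · rw [hdot]
    by_cases hr : 0 < A r ⬝ᵥ z
    · have h1 := hmin r (mem_filter.2 ⟨mem_univ _, hr⟩)
      rw [le_div_iff₀ hr] at h1
      linarith
    · have := mul_nonpos_of_nonneg_of_nonpos ht0.le (not_lt.1 hr)
      have h1 := hq r
      linarith
  · rw [ssubset_iff_of_subset]
    · exact ⟨s, hst, hsB⟩
    · intro i hi
      rw [mem_tight, hdot, hz i hi, mul_zero, add_zero]
      exact mem_tight.1 hi

/-- From every feasible point there is a vertex which is at least as good, or the objective function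
increases along a ray. -/
lemma exists_better (hD : Det A univ) : ∀ (N : ℕ) {q : Fin n → ℝ}, Feas A β q →
    (univ \ tight A β q).card ≤ N →
    (∃ v, IsVertex A β v ∧ c ⬝ᵥ q ≤ c ⬝ᵥ v) ∨ ∃ d, (∀ j, A j ⬝ᵥ d ≤ 0) ∧ 0 < c ⬝ᵥ d := by
  classical
  intro N
  induction N with
  | zero =>
    intro q hq hN
    left
    have hall : ∀ i, i ∈ tight A β q := by
      intro i
      by_contra hi
      have : 0 < (univ \ tight A β q).card := card_pos.2 ⟨i, by simp [hi]⟩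
      omega
    refine ⟨q, ⟨hq, fun q' hq' => ?_⟩, le_rfl⟩
    have := hD (q' - q) fun i _ => by
      rw [dotProduct_sub, hq' i (hall i), mem_tight.1 (hall i), sub_self]
    exact sub_eq_zero.1 this
  | succ N ih =>
    intro q hq hN
    have key : ∀ z : Fin n → ℝ, (∀ i ∈ tight A β q, A i ⬝ᵥ z = 0) → 0 ≤ c ⬝ᵥ z →
        (∃ j, 0 < A j ⬝ᵥ z) →
        (∃ v, IsVertex A β v ∧ c ⬝ᵥ q ≤ c ⬝ᵥ v) ∨ ∃ d, (∀ j, A j ⬝ᵥ d ≤ 0) ∧ 0 < c ⬝ᵥ d := by
      rintro z hz hcz ⟨j, hj⟩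
      obtain ⟨t, ht, h1, h2, -⟩ := move hq hz hj
      have h3 : c ⬝ᵥ q ≤ c ⬝ᵥ (q + t • z) := by
        rw [dotProduct_add, dotProduct_smul, smul_eq_mul]
        have := mul_nonneg ht.le hcz
        linarith
      have h4 : (univ \ tight A β (q + t • z)).card ≤ N := by
        rw [card_sdiff_of_subset (subset_univ _)] at hN ⊢
        have := card_lt_card h2
        have h5 := card_le_univ (tight A β (q + t • z))
        rw [card_univ] at hN ⊢
        omega
      rcases ih h1 h4 with ⟨v, hv, h5⟩ | h5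
      · exact Or.inl ⟨v, hv, h3.trans h5⟩
      · exact Or.inr h5
    by_cases hv : IsVertex A β q
    · exact Or.inl ⟨q, hv, le_rfl⟩
    obtain ⟨q', h1, h2⟩ : ∃ q', (∀ i ∈ tight A β q, A i ⬝ᵥ q' = β i) ∧ q' ≠ q := by
      by_contra hcon
      push Not at hcon
      exact hv ⟨hq, hcon⟩
    set z := q' - q with hz
    have hz0 : z ≠ 0 := sub_ne_zero.2 h2
    have hzt : ∀ i ∈ tight A β q, A i ⬝ᵥ z = 0 := by
      intro i hi
      rw [hz, dotProduct_sub, h1 i hi, mem_tight.1 hi, sub_self]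
    have hzt' : ∀ i ∈ tight A β q, A i ⬝ᵥ (-z) = 0 := by
      intro i hi
      rw [dotProduct_neg, hzt i hi, neg_zero]
    have hex : ∃ i, A i ⬝ᵥ z ≠ 0 := by
      by_contra hcon
      push Not at hcon
      exact hz0 (hD z fun i _ => hcon i)
    rcases lt_trichotomy (c ⬝ᵥ z) 0 with h | h | h
    · by_cases hb : ∃ j, 0 < A j ⬝ᵥ (-z)
      · exact key (-z) hzt' (by rw [dotProduct_neg]; linarith) hb
      · push Not at hb
        exact Or.inr ⟨-z, hb, by rw [dotProduct_neg]; linarith⟩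
    · obtain ⟨i, hi⟩ := hex
      rcases lt_or_gt_of_ne hi with h3 | h3
      · exact key (-z) hzt' (by rw [dotProduct_neg, h, neg_zero])
          ⟨i, by rw [dotProduct_neg]; linarith⟩
      · exact key z hzt h.ge ⟨i, h3⟩
    · by_cases hb : ∃ j, 0 < A j ⬝ᵥ z
      · exact key z hzt h.le hb
      · push Not at hb
        exact Or.inr ⟨z, hb, h⟩

lemma Det.mono {S T : Finset (Fin m)} (h : Det A S) (hST : S ⊆ T) : Det A T :=
  fun z hz => h z fun i hi => hz i (hST hi)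

lemma pert_le (b : Fin m → ℝ) {ε : ℝ} (hε : 0 < ε) (i : Fin m) : b i ≤ pert b ε i := by
  unfold pert
  have := pow_pos hε ((i : ℕ) + 1)
  linarith

lemma tendsto_dot_sol (hc : B.card = n) (x : Fin n → ℝ) :
    Tendsto (fun ε => x ⬝ᵥ sol A B hc (pert b ε)) (𝓝[>] (0 : ℝ)) (𝓝 (x ⬝ᵥ sol A B hc b)) := by
  have h1 : Continuous fun ε : ℝ => x ⬝ᵥ sol A B hc (pert b ε) := by
    simp only [dot_sol, pert]
    fun_prop
  have h2 := (h1.tendsto 0).mono_left (nhdsWithin_le_nhds (s := Set.Ioi (0 : ℝ)))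
  rwa [pert_zero] at h2

/-- every vertex has a lexicographically feasible basis -/
theorem exists_start {q₀ : Fin n → ℝ} (hq₀ : IsVertex A b q₀) :
    ∃ B, LexBasis A b B ∧ B ⊆ tight A b q₀ := by
  classical
  set u : Fin n → ℝ := ∑ i ∈ tight A b q₀, A i with hu
  have hux : ∀ x : Fin n → ℝ, u ⬝ᵥ x = ∑ i ∈ tight A b q₀, A i ⬝ᵥ x := fun x => by
    rw [hu, sum_dotProduct]
  have hD : Det A univ := (det_of_vertex hq₀).mono (subset_univ _)
  -- a good basis for each `ε`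
  have h1 : ∀ᶠ ε in 𝓝[>] (0 : ℝ), ∃ B, LexBasis A b B ∧
      ∀ h : B.card = n, u ⬝ᵥ q₀ ≤ u ⬝ᵥ sol A B h (pert b ε) := by
    filter_upwards [ev_iff A b, self_mem_nhdsWithin] with ε hε hpos
    have hf : Feas A (pert b ε) q₀ := fun i => (hq₀.1 i).trans (pert_le b hpos i)
    rcases exists_better (c := u) hD _ hf le_rfl with ⟨v, hv, hle⟩ | ⟨d, hd, hcd⟩
    · refine ⟨_, (hε _).1 ⟨v, hv, rfl⟩, fun h => ?_⟩
      have e : v = sol A _ h (pert b ε) :=
        eq_sol (det_of_vertex hv) h fun i hi => mem_tight.1 hi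
      rw [← e]
      exact hle
    · exfalso
      rw [hux] at hcd
      exact absurd hcd (not_lt.2 (sum_nonpos fun i _ => hd i))
  -- one basis for arbitrarily small `ε`
  have h2 : ∃ B, ∃ᶠ ε in 𝓝[>] (0 : ℝ), LexBasis A b B ∧
      ∀ h : B.card = n, u ⬝ᵥ q₀ ≤ u ⬝ᵥ sol A B h (pert b ε) := by
    by_contra hcon
    rw [not_exists] at hcon
    have h3 : ∀ᶠ ε in 𝓝[>] (0 : ℝ), ∀ B, ¬ (LexBasis A b B ∧
        ∀ h : B.card = n, u ⬝ᵥ q₀ ≤ u ⬝ᵥ sol A B h (pert b ε)) := by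
      rw [eventually_all]
      intro B
      exact not_frequently.1 (hcon B)
    obtain ⟨ε, ⟨B, h4⟩, h5⟩ := (h1.and h3).exists
    exact h5 B h4
  obtain ⟨B, hB⟩ := h2
  obtain ⟨ε₁, hlex, -⟩ := hB.exists
  refine ⟨B, hlex, ?_⟩
  have hge : u ⬝ᵥ q₀ ≤ u ⬝ᵥ sol A B hlex.card b := by
    by_contra hcon
    push Not at hcon
    have h3 := (tendsto_dot_sol (A := A) (b := b) hlex.card u).eventually_lt_const hcon
    obtain ⟨ε, h4, h5⟩ := (hB.and_eventually h3).exists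
    exact absurd (h4.2 hlex.card) (not_le.2 h5)
  obtain ⟨hv, hsub⟩ := hlex.vertex
  -- the basic solution is `q₀`
  have heq : sol A B hlex.card b = q₀ := by
    apply hq₀.2
    have h3 : ∑ i ∈ tight A b q₀, A i ⬝ᵥ sol A B hlex.card b = ∑ i ∈ tight A b q₀, b i := by
      refine le_antisymm (sum_le_sum fun i _ => hv.1 i) ?_
      rw [← hux]
      refine le_trans (le_of_eq ?_) hge
      rw [hux]
      exact sum_congr rfl fun i hi => (mem_tight.1 hi).symm
    exact (sum_eq_sum_iff_of_le fun i _ => hv.1 i).1 h3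
  rw [← heq]
  exact hsub

end Pool.Agent.J4H23.Lex
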